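import Mathlib

/-!
The complex deltoid `u^2 v^2 - 4 u^3 - 4 v^3 + 18 u v - 27 = 0`: algebra.
-/

set_option autoImplicit false

open MvPolynomial

namespace Pool.Agent.H823R3.Deltoid

/-- The equation of the deltoid. -/
noncomputable def f : MvPolynomial (Fin 2) ℂ :=
  X 0 ^ 2 * X 1 ^ 2 - C 4 * X 0 ^ 3 - C 4 * X 1 ^ 3 + C 18 * X 0 * X 1 - C 27

theorem eval_f (p : Fin 2 → ℂ) :
    eval p f = p 0 ^ 2 * p 1 ^ 2 - 4 * p 0 ^ 3 - 4 * p 1 ^ 3 + 18 * p 0 * p 1 - 27 := by
  simp [f]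

theorem eval_pderiv_zero (p : Fin 2 → ℂ) :
    eval p (pderiv 0 f) = 2 * p 0 * p 1 ^ 2 - 12 * p 0 ^ 2 + 18 * p 1 := by
  simp [f, pderiv_X]
  ring

theorem eval_pderiv_one (p : Fin 2 → ℂ) :
    eval p (pderiv 1 f) = 2 * p 0 ^ 2 * p 1 - 12 * p 1 ^ 2 + 18 * p 0 := by
  simp [f, pderiv_X]
  ring

/-- The parametrisation. -/
noncomputable def par (z : ℂ) : Fin 2 → ℂ := ![2 * z + (z ^ 2)⁻¹, 2 * z⁻¹ + z ^ 2]

theorem par_zero (z : ℂ) : par z 0 = 2 * z + (z ^ 2)⁻¹ := rfl
theorem par_one (z : ℂ) : par z 1 = 2 * z⁻¹ + z ^ 2 := rfl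

theorem eval_par {z : ℂ} (hz : z ≠ 0) : eval (par z) f = 0 := by
  rw [eval_f, par_zero, par_one]
  field_simp
  ring

theorem pderiv_zero_par {z : ℂ} (hz : z ≠ 0) :
    eval (par z) (pderiv 0 f) = 4 * (z ^ 4)⁻¹ * (z ^ 3 - 1) ^ 3 := by
  rw [eval_pderiv_zero, par_zero, par_one]
  field_simp
  ring

theorem pderiv_one_par {z : ℂ} (hz : z ≠ 0) :
    eval (par z) (pderiv 1 f) = - 4 * (z ^ 5)⁻¹ * (z ^ 3 - 1) ^ 3 := by
  rw [eval_pderiv_one, par_zero, par_one]
  field_simp
  ring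

theorem exists_root_cubic (a b c : ℂ) : ∃ z : ℂ, z ^ 3 + a * z ^ 2 + b * z + c = 0 := by
  have hdeg : (Polynomial.X ^ 3 + Polynomial.C a * Polynomial.X ^ 2 + Polynomial.C b * Polynomial.X
      + Polynomial.C c : Polynomial ℂ).degree = 3 := by
    compute_degree!
  obtain ⟨z, hz⟩ := IsAlgClosed.exists_root (Polynomial.X ^ 3 + Polynomial.C a * Polynomial.X ^ 2
    + Polynomial.C b * Polynomial.X + Polynomial.C c : Polynomial ℂ) (by rw [hdeg]; norm_num)
  refine ⟨z, ?_⟩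
  simpa [Polynomial.IsRoot] using hz

theorem exists_root_quadratic (a b : ℂ) : ∃ z : ℂ, z ^ 2 + a * z + b = 0 := by
  have hdeg : (Polynomial.X ^ 2 + Polynomial.C a * Polynomial.X
      + Polynomial.C b : Polynomial ℂ).degree = 2 := by
    compute_degree!
  obtain ⟨z, hz⟩ := IsAlgClosed.exists_root (Polynomial.X ^ 2 + Polynomial.C a * Polynomial.X
    + Polynomial.C b : Polynomial ℂ) (by rw [hdeg]; norm_num)
  refine ⟨z, ?_⟩
  simpa [Polynomial.IsRoot] using hz

/-- A cubic with given elementary symmetric functions. -/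
theorem exists_roots (u v : ℂ) : ∃ a b c : ℂ, a + b + c = u ∧ a * b + b * c + c * a = v ∧
    a * b * c = 1 := by
  obtain ⟨a, ha⟩ := exists_root_cubic (-u) v (-1)
  obtain ⟨b, hb⟩ := exists_root_quadratic (a - u) (a ^ 2 - u * a + v)
  refine ⟨a, b, u - a - b, by ring, ?_, ?_⟩
  · linear_combination (-1) * hb
  · linear_combination (-a) * hb + ha

/-- Surjectivity of the parametrisation. -/
theorem exists_par {p : Fin 2 → ℂ} (hp : eval p f = 0) : ∃ z : ℂ, z ≠ 0 ∧ par z = p := by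
  rw [eval_f] at hp
  obtain ⟨a, b, c, h1, h2, h3⟩ := exists_roots (p 0) (p 1)
  have hdisc : ((a - b) * (b - c) * (c - a)) ^ 2 = 0 := by
    rw [← h1, ← h2] at hp
    linear_combination hp + (4 * (a + b + c) ^ 3 - 18 * (a + b + c) * (a * b + b * c + c * a)
      + 27 * (a * b * c + 1)) * h3 * (-1)
  have hd : (a - b) * (b - c) * (c - a) = 0 := by simpa using hdisc
  have key : ∀ a b c : ℂ, a + b + c = p 0 → a * b + b * c + c * a = p 1 → a * b * c = 1 → a = b →
      ∃ z : ℂ, z ≠ 0 ∧ par z = p := by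
    intro a b c h1 h2 h3 hab
    subst hab
    have ha : a ≠ 0 := by
      rintro rfl
      simp at h3
    have hc : c = (a ^ 2)⁻¹ := by
      field_simp
      linear_combination h3
    refine ⟨a, ha, ?_⟩
    funext i
    fin_cases i
    · show 2 * a + (a ^ 2)⁻¹ = p 0
      rw [← h1, hc]; ring
    · show 2 * a⁻¹ + a ^ 2 = p 1
      rw [← h2, hc]; field_simp; ring
  rcases mul_eq_zero.1 hd with h | h
  · rcases mul_eq_zero.1 h with h | h
    · exact key a b c h1 h2 h3 (sub_eq_zero.1 h)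
    · exact key b c a (by rw [← h1]; ring) (by rw [← h2]; ring) (by rw [← h3]; ring)
        (sub_eq_zero.1 h)
  · exact key c a b (by rw [← h1]; ring) (by rw [← h2]; ring) (by rw [← h3]; ring)
      (sub_eq_zero.1 h)

/-- Injectivity of the parametrisation. -/
theorem par_injective {z w : ℂ} (hz : z ≠ 0) (hw : w ≠ 0) (h : par z = par w) : z = w := by
  have h0 : 2 * z + (z ^ 2)⁻¹ = 2 * w + (w ^ 2)⁻¹ := congrFun h 0
  have h1 : 2 * z⁻¹ + z ^ 2 = 2 * w⁻¹ + w ^ 2 := congrFun h 1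
  by_contra hne
  have hne' : z - w ≠ 0 := sub_ne_zero.2 hne
  have e0 : 2 * (z * w) ^ 2 = z + w := by
    field_simp at h0
    have : (z - w) * (2 * (z * w) ^ 2 - (z + w)) = 0 := by linear_combination h0
    rcases mul_eq_zero.1 this with h | h
    · exact absurd h hne'
    · linear_combination h
  have e1 : (z + w) * (z * w) = 2 := by
    field_simp at h1
    have : (z - w) * ((z + w) * (z * w) - 2) = 0 := by linear_combination h1
    rcases mul_eq_zero.1 this with h | h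
    · exact absurd h hne'
    · linear_combination h
  have e2 : (z * w) ^ 3 = 1 := by
    have : 2 * (z * w) ^ 3 = 2 := by
      calc 2 * (z * w) ^ 3 = (2 * (z * w) ^ 2) * (z * w) := by ring
        _ = 2 := by rw [e0, e1]
    linear_combination (1 / 2) * this
  have : (z - w) ^ 2 = 0 := by
    have : (z - w) ^ 2 = (z + w) ^ 2 - 4 * (z * w) := by ring
    rw [this, ← e0]
    linear_combination 4 * (z * w) * e2
  exact hne' (by simpa using this)

end Pool.Agent.H823R3.Deltoid
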