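import Pool.Agent.H823R3.DeltoidTop

/-!
The complex deltoid: the three cusps are unibranch.
-/

set_option autoImplicit false

open MvPolynomial Set Filter Topology

namespace Pool.Agent.H823R3.Deltoid

/-- first coordinate near the cusp -/
noncomputable def aF (h : ℂ) : ℂ := h ^ 2 * (3 + 2 * h) / (1 + h) ^ 2
/-- second coordinate near the cusp -/
noncomputable def bF (h : ℂ) : ℂ := h ^ 2 * (3 + h) / (1 + h)

theorem par_shift_zero {z₀ h : ℂ} (hz : z₀ ^ 3 = 1) (hh : 1 + h ≠ 0) :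
    par (z₀ * (1 + h)) 0 - par z₀ 0 = z₀ * aF h := by
  have hz0 : z₀ ≠ 0 := by rintro rfl; norm_num at hz
  rw [par_zero, par_zero, aF]
  field_simp
  linear_combination (2 * h + h ^ 2) * hz

theorem par_shift_one {z₀ h : ℂ} (hz : z₀ ^ 3 = 1) (hh : 1 + h ≠ 0) :
    par (z₀ * (1 + h)) 1 - par z₀ 1 = z₀ ^ 2 * bF h := by
  have hz0 : z₀ ≠ 0 := by rintro rfl; norm_num at hz
  rw [par_one, par_one, bF]
  field_simp
  linear_combination (2 * h) * hz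

theorem norm_z₀ {z₀ : ℂ} (hz : z₀ ^ 3 = 1) : ‖z₀‖ = 1 :=
  Complex.norm_eq_one_of_pow_eq_one hz (by norm_num)

/-- squared distance to the cusp -/
noncomputable def G (h : ℂ) : ℝ := ‖aF h‖ ^ 2 + ‖bF h‖ ^ 2

theorem G_lower {h : ℂ} (hh : 1 + h ≠ 0) (hn : 1 / 2 ≤ ‖h‖) : (1 / 9) ^ 2 ≤ G h := by
  have h1 : ‖1 + h‖ ≤ 1 + ‖h‖ := by
    calc ‖1 + h‖ ≤ ‖(1 : ℂ)‖ + ‖h‖ := norm_add_le _ _
      _ = 1 + ‖h‖ := by simp
  have hpos : 0 < ‖1 + h‖ := norm_pos_iff.2 hh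
  have h3 : 3 ≤ 2 * ‖3 + h‖ + ‖3 + 2 * h‖ := by
    calc (3 : ℝ) = ‖2 * (3 + h) - (3 + 2 * h)‖ := by
          have : 2 * (3 + h) - (3 + 2 * h) = 3 := by ring
          rw [this]; simp
      _ ≤ ‖2 * (3 + h)‖ + ‖3 + 2 * h‖ := norm_sub_le _ _
      _ = 2 * ‖3 + h‖ + ‖3 + 2 * h‖ := by simp
  have hq : 1 / 3 ≤ ‖h‖ / ‖1 + h‖ := by
    rw [div_le_div_iff₀ (by norm_num) hpos]
    nlinarith
  have hcase : 1 ≤ ‖3 + h‖ ∨ 1 ≤ ‖3 + 2 * h‖ := by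
    by_contra hc
    push Not at hc
    linarith [hc.1, hc.2]
  rcases hcase with hc | hc
  · have : 1 / 9 ≤ ‖bF h‖ := by
      have e : ‖bF h‖ = ‖h‖ * ‖3 + h‖ * (‖h‖ / ‖1 + h‖) := by
        rw [bF]; simp; ring
      rw [e]
      calc (1 : ℝ) / 9 ≤ (1 / 2) * 1 * (1 / 3) := by norm_num
        _ ≤ ‖h‖ * ‖3 + h‖ * (‖h‖ / ‖1 + h‖) := by gcongr
    have h2 : (1 / 9 : ℝ) ^ 2 ≤ ‖bF h‖ ^ 2 := by gcongr
    unfold G
    nlinarith [sq_nonneg ‖aF h‖]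
  · have : 1 / 9 ≤ ‖aF h‖ := by
      have e : ‖aF h‖ = ‖3 + 2 * h‖ * (‖h‖ / ‖1 + h‖) ^ 2 := by
        rw [aF]; simp; ring
      rw [e]
      calc (1 : ℝ) / 9 ≤ 1 * (1 / 3) ^ 2 := by norm_num
        _ ≤ ‖3 + 2 * h‖ * (‖h‖ / ‖1 + h‖) ^ 2 := by gcongr
    have h2 : (1 / 9 : ℝ) ^ 2 ≤ ‖aF h‖ ^ 2 := by gcongr
    unfold G
    nlinarith [sq_nonneg ‖bF h‖]

theorem one_add_ne {h : ℂ} (hn : ‖h‖ ≤ 1 / 2) : 1 / 2 ≤ ‖1 + h‖ := by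
  have : ‖(1 : ℂ)‖ ≤ ‖1 + h‖ + ‖h‖ := by
    calc ‖(1 : ℂ)‖ = ‖(1 + h) - h‖ := by ring_nf
      _ ≤ ‖1 + h‖ + ‖h‖ := norm_sub_le _ _
  simp at this
  linarith

theorem norm_smul_aux {s : ℝ} (hs0 : 0 ≤ s) (h : ℂ) : ‖(s : ℂ) * h‖ = s * ‖h‖ := by
  rw [norm_mul, Complex.norm_real, Real.norm_of_nonneg hs0]

theorem mono1 {s : ℝ} (hs0 : 0 ≤ s) (hs1 : s ≤ 1) {h : ℂ} (hn : ‖h‖ ≤ 1 / 2) :
    s * ‖3 + 2 * (s * h)‖ ≤ ‖3 + 2 * h‖ := by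
  have h1 : 2 ≤ ‖3 + 2 * h‖ := by
    have : ‖(3 : ℂ)‖ ≤ ‖3 + 2 * h‖ + ‖2 * h‖ := by
      calc ‖(3 : ℂ)‖ = ‖(3 + 2 * h) - 2 * h‖ := by ring_nf
        _ ≤ _ := norm_sub_le _ _
    simp at this
    linarith
  have h2 : s * ‖3 + 2 * (s * h)‖ ≤ s * ‖3 + 2 * h‖ + 2 * (s * (1 - s)) * ‖h‖ := by
    calc s * ‖3 + 2 * (s * h)‖ = ‖(s : ℂ) * (3 + 2 * (s * h))‖ := (norm_smul_aux hs0 _).symm
      _ = ‖(s : ℂ) * (3 + 2 * h) - ((2 * (s * (1 - s)) : ℝ) : ℂ) * h‖ := by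
          congr 1; push_cast; ring
      _ ≤ ‖(s : ℂ) * (3 + 2 * h)‖ + ‖((2 * (s * (1 - s)) : ℝ) : ℂ) * h‖ := norm_sub_le _ _
      _ = s * ‖3 + 2 * h‖ + 2 * (s * (1 - s)) * ‖h‖ := by
          rw [norm_smul_aux hs0, norm_smul_aux]
          have := mul_nonneg hs0 (sub_nonneg.2 hs1)
          linarith
  have h3 : 0 ≤ s * (1 - s) := mul_nonneg hs0 (sub_nonneg.2 hs1)
  nlinarith [norm_nonneg h, mul_nonneg (sub_nonneg.2 hs1) (norm_nonneg h),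
    mul_nonneg (sub_nonneg.2 hs1) (by linarith : (0:ℝ) ≤ ‖3 + 2 * h‖ - 2)]

theorem mono2 {s : ℝ} (hs0 : 0 ≤ s) (hs1 : s ≤ 1) {h : ℂ} (hn : ‖h‖ ≤ 1 / 2) :
    s * ‖3 + s * h‖ ≤ ‖3 + h‖ := by
  have h1 : 2 ≤ ‖3 + h‖ := by
    have : ‖(3 : ℂ)‖ ≤ ‖3 + h‖ + ‖h‖ := by
      calc ‖(3 : ℂ)‖ = ‖(3 + h) - h‖ := by ring_nf
        _ ≤ _ := norm_sub_le _ _
    simp at this
    linarith
  have h2 : s * ‖3 + s * h‖ ≤ s * ‖3 + h‖ + (s * (1 - s)) * ‖h‖ := by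
    calc s * ‖3 + s * h‖ = ‖(s : ℂ) * (3 + s * h)‖ := (norm_smul_aux hs0 _).symm
      _ = ‖(s : ℂ) * (3 + h) - ((s * (1 - s) : ℝ) : ℂ) * h‖ := by
          congr 1; push_cast; ring
      _ ≤ ‖(s : ℂ) * (3 + h)‖ + ‖((s * (1 - s) : ℝ) : ℂ) * h‖ := norm_sub_le _ _
      _ = s * ‖3 + h‖ + (s * (1 - s)) * ‖h‖ := by
          rw [norm_smul_aux hs0, norm_smul_aux (mul_nonneg hs0 (sub_nonneg.2 hs1))]
  have h3 : 0 ≤ s * (1 - s) := mul_nonneg hs0 (sub_nonneg.2 hs1)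
  nlinarith [norm_nonneg h, mul_nonneg (sub_nonneg.2 hs1) (norm_nonneg h),
    mul_nonneg (sub_nonneg.2 hs1) (by linarith : (0:ℝ) ≤ ‖3 + h‖ - 2)]

theorem mono3 {s : ℝ} (hs0 : 0 ≤ s) (hs1 : s ≤ 1) {h : ℂ} (hn : ‖h‖ ≤ 1 / 2) :
    s * ‖1 + h‖ ^ 2 ≤ ‖1 + s * h‖ ^ 2 := by
  have hh : ‖h‖ ^ 2 ≤ 1 := by nlinarith [norm_nonneg h]
  rw [Complex.sq_norm, Complex.normSq_apply] at hh
  rw [Complex.sq_norm, Complex.sq_norm, Complex.normSq_apply, Complex.normSq_apply]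
  simp only [Complex.add_re, Complex.one_re, Complex.add_im, Complex.one_im, Complex.mul_re,
    Complex.ofReal_re, Complex.ofReal_im, Complex.mul_im, zero_mul, sub_zero, add_zero, zero_add]
  have : 0 ≤ (1 - s) * (1 - s * (h.re * h.re + h.im * h.im)) := by
    apply mul_nonneg (sub_nonneg.2 hs1)
    nlinarith [mul_nonneg hs0 (sub_nonneg.2 hh)]
  nlinarith [this]

theorem mono4 {s : ℝ} (hs0 : 0 ≤ s) (hs1 : s ≤ 1) {h : ℂ} (hn : ‖h‖ ≤ 1 / 2) :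
    s * ‖1 + h‖ ≤ ‖1 + s * h‖ := by
  have := mono3 hs0 hs1 hn
  refine le_of_sq_le_sq ?_ (norm_nonneg _)
  calc (s * ‖1 + h‖) ^ 2 = s * (s * ‖1 + h‖ ^ 2) := by ring
    _ ≤ 1 * (s * ‖1 + h‖ ^ 2) := by gcongr
    _ ≤ ‖1 + s * h‖ ^ 2 := by linarith

theorem aF_mono {s : ℝ} (hs0 : 0 ≤ s) (hs1 : s ≤ 1) {h : ℂ} (hn : ‖h‖ ≤ 1 / 2) :
    ‖aF (s * h)‖ ≤ ‖aF h‖ := by
  have p1 : 1 / 2 ≤ ‖1 + h‖ := one_add_ne hn
  have hsn : ‖(s : ℂ) * h‖ ≤ 1 / 2 := by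
    rw [norm_smul_aux hs0]; nlinarith [norm_nonneg h]
  have p2 : 1 / 2 ≤ ‖1 + s * h‖ := one_add_ne hsn
  have e1 : ‖aF (s * h)‖ = s ^ 2 * ‖h‖ ^ 2 * ‖3 + 2 * (s * h)‖ / ‖1 + s * h‖ ^ 2 := by
    rw [aF, norm_div, norm_mul, norm_pow, norm_smul_aux hs0, norm_pow]; ring
  have e2 : ‖aF h‖ = ‖h‖ ^ 2 * ‖3 + 2 * h‖ / ‖1 + h‖ ^ 2 := by
    rw [aF, norm_div, norm_mul, norm_pow, norm_pow]
  rw [e1, e2, div_le_div_iff₀ (by positivity) (by positivity)]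
  have m1 := mono1 hs0 hs1 hn
  have m3 := mono3 hs0 hs1 hn
  calc s ^ 2 * ‖h‖ ^ 2 * ‖3 + 2 * (s * h)‖ * ‖1 + h‖ ^ 2
      = ‖h‖ ^ 2 * (s * ‖3 + 2 * (s * h)‖) * (s * ‖1 + h‖ ^ 2) := by ring
    _ ≤ ‖h‖ ^ 2 * ‖3 + 2 * h‖ * ‖1 + s * h‖ ^ 2 := by gcongr

theorem bF_mono {s : ℝ} (hs0 : 0 ≤ s) (hs1 : s ≤ 1) {h : ℂ} (hn : ‖h‖ ≤ 1 / 2) :
    ‖bF (s * h)‖ ≤ ‖bF h‖ := by
  have p1 : 1 / 2 ≤ ‖1 + h‖ := one_add_ne hn
  have hsn : ‖(s : ℂ) * h‖ ≤ 1 / 2 := by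
    rw [norm_smul_aux hs0]; nlinarith [norm_nonneg h]
  have p2 : 1 / 2 ≤ ‖1 + s * h‖ := one_add_ne hsn
  have e1 : ‖bF (s * h)‖ = s ^ 2 * ‖h‖ ^ 2 * ‖3 + s * h‖ / ‖1 + s * h‖ := by
    rw [bF, norm_div, norm_mul, norm_pow, norm_smul_aux hs0]; ring
  have e2 : ‖bF h‖ = ‖h‖ ^ 2 * ‖3 + h‖ / ‖1 + h‖ := by
    rw [bF, norm_div, norm_mul, norm_pow]
  rw [e1, e2, div_le_div_iff₀ (by positivity) (by positivity)]
  have m1 := mono2 hs0 hs1 hn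
  have m3 := mono4 hs0 hs1 hn
  calc s ^ 2 * ‖h‖ ^ 2 * ‖3 + s * h‖ * ‖1 + h‖
      = ‖h‖ ^ 2 * (s * ‖3 + s * h‖) * (s * ‖1 + h‖) := by ring
    _ ≤ ‖h‖ ^ 2 * ‖3 + h‖ * ‖1 + s * h‖ := by gcongr

theorem G_mono {s : ℝ} (hs0 : 0 ≤ s) (hs1 : s ≤ 1) {h : ℂ} (hn : ‖h‖ ≤ 1 / 2) :
    G (s * h) ≤ G h := by
  have := aF_mono hs0 hs1 hn
  have := bF_mono hs0 hs1 hn
  unfold G
  gcongr

theorem G_small {δ : ℝ} (hδ0 : 0 < δ) (hδ : δ < 1 / 9) {h : ℂ} (hn : ‖h‖ ≤ δ / 18) :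
    G h < δ ^ 2 := by
  have hn2 : ‖h‖ ≤ 1 / 2 := by linarith
  have p1 : 1 / 2 ≤ ‖1 + h‖ := one_add_ne hn2
  have q1 : ‖3 + 2 * h‖ ≤ 4 := by
    calc ‖3 + 2 * h‖ ≤ ‖(3 : ℂ)‖ + ‖2 * h‖ := norm_add_le _ _
      _ = 3 + 2 * ‖h‖ := by simp
      _ ≤ 4 := by linarith
  have q2 : ‖3 + h‖ ≤ 4 := by
    calc ‖3 + h‖ ≤ ‖(3 : ℂ)‖ + ‖h‖ := norm_add_le _ _
      _ = 3 + ‖h‖ := by simp
      _ ≤ 4 := by linarith
  have e2 : ‖aF h‖ = ‖h‖ ^ 2 * ‖3 + 2 * h‖ / ‖1 + h‖ ^ 2 := by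
    rw [aF, norm_div, norm_mul, norm_pow, norm_pow]
  have e2' : ‖bF h‖ = ‖h‖ ^ 2 * ‖3 + h‖ / ‖1 + h‖ := by
    rw [bF, norm_div, norm_mul, norm_pow]
  have a1 : ‖aF h‖ ≤ (δ / 18) ^ 2 * 4 / (1 / 2) ^ 2 := by
    rw [e2]; gcongr
  have b1 : ‖bF h‖ ≤ (δ / 18) ^ 2 * 4 / (1 / 2) := by
    rw [e2']; gcongr
  have hδ2 : δ ^ 2 ≤ δ := by nlinarith
  have a2 : ‖aF h‖ ≤ δ / 2 := by
    refine a1.trans ?_
    calc (δ / 18) ^ 2 * 4 / (1 / 2) ^ 2 = 4 / 81 * δ ^ 2 := by ring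
      _ ≤ δ / 2 := by linarith
  have b2 : ‖bF h‖ ≤ δ / 2 := by
    refine b1.trans ?_
    calc (δ / 18) ^ 2 * 4 / (1 / 2) = 2 / 81 * δ ^ 2 := by ring
      _ ≤ δ / 2 := by linarith
  unfold G
  nlinarith [norm_nonneg (aF h), norm_nonneg (bF h)]

/-- The parameter set of a small punctured neighbourhood of a cusp. -/
def Aset (δ : ℝ) : Set ℂ := {h | 1 + h ≠ 0 ∧ h ≠ 0 ∧ G h < δ ^ 2}

theorem Aset_norm {δ : ℝ} (hδ0 : 0 < δ) (hδ : δ < 1 / 9) {h : ℂ} (hh : h ∈ Aset δ) :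
    ‖h‖ ≤ 1 / 2 := by
  by_contra hc
  push Not at hc
  have h1 := G_lower hh.1 hc.le
  have h2 := hh.2.2
  nlinarith

theorem mem_Aset_of_small {δ : ℝ} (hδ0 : 0 < δ) (hδ : δ < 1 / 9) {h : ℂ} (h0 : h ≠ 0)
    (hn : ‖h‖ ≤ δ / 18) : h ∈ Aset δ := by
  refine ⟨?_, h0, G_small hδ0 hδ hn⟩
  have : 1 / 2 ≤ ‖1 + h‖ := one_add_ne (by linarith)
  exact norm_pos_iff.1 (by linarith)

theorem smul_mem_Aset {δ : ℝ} (hδ0 : 0 < δ) (hδ : δ < 1 / 9) {h : ℂ} (hh : h ∈ Aset δ) {c : ℝ}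
    (hc : 0 < c) (hc' : c ≤ 1 ∨ c * ‖h‖ ≤ δ / 18) : (c : ℂ) * h ∈ Aset δ := by
  have hn := Aset_norm hδ0 hδ hh
  have hne : (c : ℂ) * h ≠ 0 := mul_ne_zero (by exact_mod_cast hc.ne') hh.2.1
  rcases hc' with h1 | h1
  · refine ⟨?_, hne, lt_of_le_of_lt (G_mono hc.le h1 hn) hh.2.2⟩
    have : 1 / 2 ≤ ‖1 + (c : ℂ) * h‖ := one_add_ne (by
      rw [norm_smul_aux hc.le]; nlinarith [norm_nonneg h])
    exact norm_pos_iff.1 (by linarith)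
  · exact mem_Aset_of_small hδ0 hδ hne (by rw [norm_smul_aux hc.le]; exact h1)

theorem isPreconnected_Aset {δ : ℝ} (hδ0 : 0 < δ) (hδ : δ < 1 / 9) : IsPreconnected (Aset δ) := by
  have hr : 0 < δ / 18 := by positivity
  refine isPreconnected_of_forall ((δ / 18 : ℝ) : ℂ) ?_
  intro y hy
  have hy0 : 0 < ‖y‖ := norm_pos_iff.2 hy.2.1
  set c : ℝ := δ / 18 / ‖y‖ with hc
  have hcpos : 0 < c := by positivity
  have hcy : c * ‖y‖ = δ / 18 := by rw [hc]; field_simp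
  refine ⟨Metric.sphere 0 (δ / 18) ∪ segment ℝ ((c : ℂ) * y) y, ?_, ?_, ?_, ?_⟩
  · rintro w (hw | hw)
    · rw [mem_sphere_zero_iff_norm] at hw
      refine mem_Aset_of_small hδ0 hδ ?_ hw.le
      rintro rfl
      simp at hw
      linarith
    · obtain ⟨a, b, ha, hb, hab, rfl⟩ := hw
      have e : a • ((c : ℂ) * y) + b • y = ((a * c + b : ℝ) : ℂ) * y := by
        rw [Complex.real_smul, Complex.real_smul]; push_cast; ring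
      rw [e]
      have hpos : 0 < a * c + b := by
        rcases ha.lt_or_eq with h | h
        · positivity
        · subst h; simp at hab; subst hab; norm_num
      refine smul_mem_Aset hδ0 hδ hy hpos ?_
      rcases le_total c 1 with h | h
      · left; nlinarith
      · right
        rw [← hcy]
        gcongr
        nlinarith
  · left
    rw [mem_sphere_zero_iff_norm, Complex.norm_real, Real.norm_of_nonneg hr.le]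
  · right
    exact right_mem_segment ℝ _ _
  · refine IsPreconnected.union ((c : ℂ) * y) ?_ (left_mem_segment ℝ _ _) ?_ ?_
    · rw [mem_sphere_zero_iff_norm, norm_smul_aux hcpos.le, hcy]
    · refine (isPathConnected_sphere ?_ 0 hr.le).isConnected.isPreconnected
      rw [Complex.rank_real_complex]
      norm_num
    · exact (convex_segment _ _).isPreconnected

theorem nbhd_eq {z₀ : ℂ} (hz : z₀ ^ 3 = 1) {δ : ℝ} :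
    {q : Fin 2 → ℂ | eval q f = 0 ∧ q ≠ par z₀ ∧
      ‖q 0 - par z₀ 0‖ ^ 2 + ‖q 1 - par z₀ 1‖ ^ 2 < δ ^ 2}
      = (fun h => par (z₀ * (1 + h))) '' Aset δ := by
  have hz0 : z₀ ≠ 0 := by rintro rfl; norm_num at hz
  have hn := norm_z₀ hz
  have hG : ∀ h : ℂ, 1 + h ≠ 0 → ‖par (z₀ * (1 + h)) 0 - par z₀ 0‖ ^ 2 +
      ‖par (z₀ * (1 + h)) 1 - par z₀ 1‖ ^ 2 = G h := by
    intro h hh
    rw [par_shift_zero hz hh, par_shift_one hz hh, norm_mul, norm_mul, norm_pow, hn]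
    simp [G]
  ext q
  constructor
  · rintro ⟨h1, h2, h3⟩
    obtain ⟨z, hz1, rfl⟩ := exists_par h1
    have hzz : z₀ * (1 + (z / z₀ - 1)) = z := by field_simp; ring
    have h1z : 1 + (z / z₀ - 1) ≠ 0 := by
      intro h
      rw [h, mul_zero] at hzz
      exact hz1 hzz.symm
    refine ⟨z / z₀ - 1, ⟨h1z, ?_, ?_⟩, ?_⟩
    · intro h
      rw [h] at hzz
      apply h2
      rw [← hzz]; simp
    · rw [← hG _ h1z, hzz]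
      exact h3
    · show par (z₀ * (1 + (z / z₀ - 1))) = par z
      rw [hzz]
  · rintro ⟨h, ⟨h1, h2, h3⟩, rfl⟩
    have hne : z₀ * (1 + h) ≠ 0 := mul_ne_zero hz0 h1
    refine ⟨eval_par hne, ?_, ?_⟩
    · intro he
      have := par_injective hne hz0 he
      apply h2
      have h4 : z₀ * h = 0 := by linear_combination this
      rcases mul_eq_zero.1 h4 with h5 | h5
      · exact absurd h5 hz0
      · exact h5
    · show ‖par (z₀ * (1 + h)) 0 - par z₀ 0‖ ^ 2 + ‖par (z₀ * (1 + h)) 1 - par z₀ 1‖ ^ 2 < δ ^ 2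
      rw [hG h h1]
      exact h3

theorem unibranch {z₀ : ℂ} (hz : z₀ ^ 3 = 1) :
    ∃ ε : ℝ, 0 < ε ∧ ∀ δ : ℝ, 0 < δ → δ < ε →
      IsPreconnected {q : Fin 2 → ℂ | eval q f = 0 ∧ q ≠ par z₀ ∧
        ‖q 0 - par z₀ 0‖ ^ 2 + ‖q 1 - par z₀ 1‖ ^ 2 < δ ^ 2} := by
  have hz0 : z₀ ≠ 0 := by rintro rfl; norm_num at hz
  refine ⟨1 / 9, by norm_num, fun δ hδ0 hδ => ?_⟩
  rw [nbhd_eq hz]
  refine (isPreconnected_Aset hδ0 hδ).image _ ?_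
  refine continuousOn_par.comp (by fun_prop) ?_
  intro h hh
  exact mul_ne_zero hz0 hh.1

/-- The set of unibranch singular points is exactly the set of the three cusps. -/
theorem sing_eq : {p : Fin 2 → ℂ | MvPolynomial.eval p f = 0 ∧
        (∀ i : Fin 2, MvPolynomial.eval p (MvPolynomial.pderiv i f) = 0) ∧
        ∃ ε : ℝ, 0 < ε ∧ ∀ δ : ℝ, 0 < δ → δ < ε →
          IsPreconnected {q : Fin 2 → ℂ | MvPolynomial.eval q f = 0 ∧ q ≠ p ∧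
            ‖q 0 - p 0‖ ^ 2 + ‖q 1 - p 1‖ ^ 2 < δ ^ 2}} = par '' {z : ℂ | z ^ 3 = 1} := by
  ext p
  constructor
  · rintro ⟨h1, h2, -⟩
    obtain ⟨z, hz, rfl⟩ := exists_par h1
    refine ⟨z, ?_, rfl⟩
    have h3 := h2 0
    rw [pderiv_zero_par hz] at h3
    have h4 : (z ^ 3 - 1) ^ 3 = 0 := by
      rcases mul_eq_zero.1 h3 with h | h
      · exfalso
        simp [hz] at h
      · exact h
    have h5 : z ^ 3 - 1 = 0 := by simpa using h4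
    exact sub_eq_zero.1 h5
  · rintro ⟨z, hz, rfl⟩
    have hz' : z ^ 3 = 1 := hz
    have hz0 : z ≠ 0 := by rintro rfl; norm_num at hz'
    refine ⟨eval_par hz0, ?_, unibranch hz'⟩
    intro i
    fin_cases i
    · show eval (par z) (pderiv 0 f) = 0
      rw [pderiv_zero_par hz0, hz']; simp
    · show eval (par z) (pderiv 1 f) = 0
      rw [pderiv_one_par hz0, hz']; simp

theorem ncard_cubeRoots : {z : ℂ | z ^ 3 = 1}.ncard = 3 := by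
  have h : {z : ℂ | z ^ 3 = 1} = ((Polynomial.nthRootsFinset 3 (1 : ℂ) : Finset ℂ) : Set ℂ) := by
    ext z
    simp
  rw [h, Set.ncard_coe_finset]
  exact (Complex.isPrimitiveRoot_exp 3 (by norm_num)).card_nthRootsFinset

theorem ncard_sing : Set.ncard {p : Fin 2 → ℂ | MvPolynomial.eval p f = 0 ∧
        (∀ i : Fin 2, MvPolynomial.eval p (MvPolynomial.pderiv i f) = 0) ∧
        ∃ ε : ℝ, 0 < ε ∧ ∀ δ : ℝ, 0 < δ → δ < ε →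
          IsPreconnected {q : Fin 2 → ℂ | MvPolynomial.eval q f = 0 ∧ q ≠ p ∧
            ‖q 0 - p 0‖ ^ 2 + ‖q 1 - p 1‖ ^ 2 < δ ^ 2}} = 3 := by
  rw [sing_eq, Set.InjOn.ncard_image, ncard_cubeRoots]
  intro z hz w hw h
  have hz' : z ^ 3 = 1 := hz
  have hw' : w ^ 3 = 1 := hw
  exact par_injective (by rintro rfl; norm_num at hz') (by rintro rfl; norm_num at hw') h

end Pool.Agent.H823R3.Deltoid
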