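import Pool.Agent.H823R3.DeltoidAlg

/-!
The complex deltoid: irreducibility of the equation.
-/

set_option autoImplicit false

open MvPolynomial

namespace Pool.Agent.H823R3.Deltoid

theorem coeffs_zero (b0 b1 b2 b3 b4 b5 b6 : ℂ)
    (h : (Polynomial.C b0 + Polynomial.C b1 * Polynomial.X + Polynomial.C b2 * Polynomial.X ^ 2
      + Polynomial.C b3 * Polynomial.X ^ 3 + Polynomial.C b4 * Polynomial.X ^ 4
      + Polynomial.C b5 * Polynomial.X ^ 5 + Polynomial.C b6 * Polynomial.X ^ 6 : Polynomial ℂ)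
        = 0) : b3 = 0 ∧ b4 = 0 ∧ b5 = 0 ∧ b6 = 0 := by
  have c6 := congrArg (fun q => Polynomial.coeff q 6) h
  have c5 := congrArg (fun q => Polynomial.coeff q 5) h
  have c4 := congrArg (fun q => Polynomial.coeff q 4) h
  have c3 := congrArg (fun q => Polynomial.coeff q 3) h
  simp [Polynomial.coeff_X, Polynomial.coeff_C] at c6 c5 c4 c3
  exact ⟨c3, c4, c5, c6⟩

/-- No polynomial solves the cubic. -/
theorem no_root (a : Polynomial ℂ) :
    a ^ 3 - Polynomial.C (1 / 4) * Polynomial.X ^ 2 * a ^ 2 - Polynomial.C (9 / 2) * Polynomial.X * a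
      + Polynomial.X ^ 3 + Polynomial.C (27 / 4) ≠ 0 := by
  intro h
  by_cases hd : 3 ≤ a.natDegree
  · -- the leading term of `a ^ 3` cannot cancel
    have h1 : a ^ 3 = Polynomial.C (1 / 4) * Polynomial.X ^ 2 * a ^ 2
        + Polynomial.C (9 / 2) * Polynomial.X * a - Polynomial.X ^ 3 - Polynomial.C (27 / 4) := by
      linear_combination h
    have h2 : (a ^ 3).natDegree = 3 * a.natDegree := by
      rw [Polynomial.natDegree_pow]
    have h3 : (Polynomial.C (1 / 4 : ℂ) * Polynomial.X ^ 2 * a ^ 2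
        + Polynomial.C (9 / 2) * Polynomial.X * a - Polynomial.X ^ 3
        - Polynomial.C (27 / 4)).natDegree ≤ 2 * a.natDegree + 2 := by
      have e1 : (Polynomial.C (1 / 4 : ℂ) * Polynomial.X ^ 2 * a ^ 2).natDegree
          ≤ 2 * a.natDegree + 2 := by
        refine (Polynomial.natDegree_mul_le).trans ?_
        have := Polynomial.natDegree_C_mul_X_pow_le (1 / 4 : ℂ) 2
        have := Polynomial.natDegree_pow_le (p := a) (n := 2)
        omega
      have e2 : (Polynomial.C (9 / 2 : ℂ) * Polynomial.X * a).natDegree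
          ≤ 2 * a.natDegree + 2 := by
        refine (Polynomial.natDegree_mul_le).trans ?_
        have := Polynomial.natDegree_C_mul_X_pow_le (9 / 2 : ℂ) 1
        rw [pow_one] at this
        omega
      have e3 : (Polynomial.X ^ 3 : Polynomial ℂ).natDegree ≤ 2 * a.natDegree + 2 := by
        rw [Polynomial.natDegree_X_pow]; omega
      have e4 : (Polynomial.C (27 / 4 : ℂ)).natDegree ≤ 2 * a.natDegree + 2 := by
        rw [Polynomial.natDegree_C]; omega
      have := Polynomial.natDegree_sub_le_of_le (Polynomial.natDegree_sub_le_of_le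
        (Polynomial.natDegree_add_le_of_degree_le e1 e2) e3) e4
      simpa using this
    rw [← h1, h2] at h3
    omega
  · -- degree at most two: compare coefficients
    have ha : a = Polynomial.C (a.coeff 0) + Polynomial.C (a.coeff 1) * Polynomial.X
        + Polynomial.C (a.coeff 2) * Polynomial.X ^ 2 := by
      conv_lhs => rw [a.as_sum_range_C_mul_X_pow' (n := 3) (by omega)]
      simp [Finset.sum_range_succ]
    generalize a.coeff 0 = a0 at ha
    generalize a.coeff 1 = a1 at ha
    generalize a.coeff 2 = a2 at ha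
    have hev : ∀ x : ℂ, (a0 + a1 * x + a2 * x ^ 2) ^ 3 - 1 / 4 * x ^ 2 * (a0 + a1 * x + a2 * x ^ 2) ^ 2
        - 9 / 2 * x * (a0 + a1 * x + a2 * x ^ 2) + x ^ 3 + 27 / 4 = 0 := by
      intro x
      have := congrArg (Polynomial.eval x) h
      rw [ha] at this
      simpa using this
    -- expand as a polynomial of degree six in `x`
    have hp : (Polynomial.C (a0 ^ 3 + 27 / 4)
        + Polynomial.C (3 * a0 ^ 2 * a1 - 9 / 2 * a0) * Polynomial.X
        + Polynomial.C (3 * a0 ^ 2 * a2 + 3 * a0 * a1 ^ 2 - 1 / 4 * a0 ^ 2 - 9 / 2 * a1)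
          * Polynomial.X ^ 2
        + Polynomial.C (6 * a0 * a1 * a2 + a1 ^ 3 - 1 / 2 * a0 * a1 - 9 / 2 * a2 + 1)
          * Polynomial.X ^ 3
        + Polynomial.C (3 * a0 * a2 ^ 2 + 3 * a1 ^ 2 * a2 - 1 / 4 * (a1 ^ 2 + 2 * a0 * a2))
          * Polynomial.X ^ 4
        + Polynomial.C (3 * a1 * a2 ^ 2 - 1 / 2 * a1 * a2) * Polynomial.X ^ 5
        + Polynomial.C (a2 ^ 3 - 1 / 4 * a2 ^ 2) * Polynomial.X ^ 6 : Polynomial ℂ) = 0 := by
      apply Polynomial.funext
      intro x
      simp only [Polynomial.eval_add, Polynomial.eval_mul, Polynomial.eval_C, Polynomial.eval_X,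
        Polynomial.eval_pow, Polynomial.eval_zero]
      linear_combination hev x
    obtain ⟨c3, c4, c5, c6⟩ := coeffs_zero _ _ _ _ _ _ _ hp
    clear hp hev ha h
    have h6 : a2 ^ 2 * (a2 - 1 / 4) = 0 := by linear_combination c6
    rcases mul_eq_zero.1 h6 with h | h
    · have h2 : a2 = 0 := by simpa using h
      subst h2
      have : a1 ^ 2 = 0 := by linear_combination (-4) * c4
      have h1 : a1 = 0 := by simpa using this
      subst h1
      norm_num at c3
    · have h2 : a2 = 1 / 4 := by linear_combination h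
      subst h2
      have h1 : a1 = 0 := by linear_combination 16 * c5
      subst h1
      have h0 : a0 = 0 := by linear_combination 16 * c4
      subst h0
      norm_num at c3

/-- The monic version of the equation. -/
noncomputable def f1 : Polynomial (MvPolynomial (Fin 1) ℂ) :=
  Polynomial.X ^ 3 + Polynomial.C (-(C (1 / 4) * X 0 ^ 2)) * Polynomial.X ^ 2
    + Polynomial.C (-(C (9 / 2) * X 0)) * Polynomial.X + Polynomial.C (X 0 ^ 3 + C (27 / 4))

theorem f1_monic : f1.Monic := by
  unfold f1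
  monicity!

theorem f1_natDegree : f1.natDegree = 3 := by
  unfold f1
  compute_degree!

theorem f1_roots : f1.roots = 0 := by
  rw [Multiset.eq_zero_iff_forall_notMem]
  intro a ha
  rw [Polynomial.mem_roots f1_monic.ne_zero, Polynomial.IsRoot.def] at ha
  let φ : MvPolynomial (Fin 1) ℂ →ₐ[ℂ] Polynomial ℂ := aeval (fun _ => Polynomial.X)
  have h := congrArg φ ha
  refine no_root (φ a) ?_
  rw [map_zero] at h
  rw [← h]
  have hC : ∀ c : ℂ, φ (C c) = Polynomial.C c := fun c => by simp [φ]
  have hX : φ (X 0) = Polynomial.X := by simp [φ]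
  have he : Polynomial.eval a f1 = a ^ 3 + (-(C (1 / 4) * X 0 ^ 2)) * a ^ 2
      + (-(C (9 / 2) * X 0)) * a + (X 0 ^ 3 + C (27 / 4)) := by
    unfold f1
    simp only [Polynomial.eval_add, Polynomial.eval_mul, Polynomial.eval_C, Polynomial.eval_X,
      Polynomial.eval_pow]
  rw [he]
  simp only [map_add, map_mul, map_pow, map_neg, hC, hX]
  ring

theorem f1_irreducible : Irreducible f1 := by
  rw [f1_monic.irreducible_iff_roots_eq_zero_of_degree_le_three (by rw [f1_natDegree]; norm_num)
    (by rw [f1_natDegree])]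
  exact f1_roots

theorem finSucc_f : finSuccEquiv ℂ 1 f = Polynomial.C (C (-4)) * f1 := by
  have h1 : (1 : Fin 2) = Fin.succ 0 := rfl
  unfold f f1
  rw [h1]
  simp only [map_add, map_sub, map_mul, map_pow, finSuccEquiv_X_zero, finSuccEquiv_X_succ,
    map_neg]
  have hC : ∀ c : ℂ, finSuccEquiv ℂ 1 (C c) = Polynomial.C (C c) := fun c => by
    simp [finSuccEquiv_apply]
  simp only [hC]
  have e : ∀ a b : ℂ, Polynomial.C (C (a * b)) =
      (Polynomial.C (C a) * Polynomial.C (C b) : Polynomial (MvPolynomial (Fin 1) ℂ)) := by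
    intro a b; simp
  have e1 : (Polynomial.C (C 4) : Polynomial (MvPolynomial (Fin 1) ℂ)) * Polynomial.C (C (1 / 4)) = 1 := by
    rw [← e]; norm_num
  have e2 : (Polynomial.C (C 4) : Polynomial (MvPolynomial (Fin 1) ℂ)) * Polynomial.C (C (9 / 2))
      = Polynomial.C (C 18) := by
    rw [← e]; norm_num
  have e3 : (Polynomial.C (C 4) : Polynomial (MvPolynomial (Fin 1) ℂ)) * Polynomial.C (C (27 / 4))
      = Polynomial.C (C 27) := by
    rw [← e]; norm_num
  linear_combination (-Polynomial.C (X 0) ^ 2 * Polynomial.X ^ 2) * e1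
    - (Polynomial.X * Polynomial.C (X 0)) * e2 + e3

theorem f_irreducible : Irreducible f := by
  rw [← MulEquiv.irreducible_iff (finSuccEquiv ℂ 1), finSucc_f]
  have hu : IsUnit (Polynomial.C (C (-4)) : Polynomial (MvPolynomial (Fin 1) ℂ)) := by
    rw [Polynomial.isUnit_C]
    exact (isUnit_iff_ne_zero.2 (by norm_num : (-4 : ℂ) ≠ 0)).map (C : ℂ →+* MvPolynomial (Fin 1) ℂ)
  rw [irreducible_isUnit_mul hu]
  exact f1_irreducible

end Pool.Agent.H823R3.Deltoid
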