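import Mathlib

/-!
The fundamental group of a space homeomorphic to the punctured complex plane is cyclic.
-/

set_option autoImplicit false

open Set Filter Topology

namespace Pool.Agent.H823R3

/-- the loop `O ∘ γ` -/
noncomputable def orbitLoop {Z : Type*} [TopologicalSpace Z] (O : C(ℂ, Z)) (q : Z) {a b : ℂ}
    (γ : Path a b) (ha : O a = q) (hb : O b = q) : Path q q :=
  (γ.map O.continuous).cast ha.symm hb.symm

theorem orbitLoop_eq {Z : Type*} [TopologicalSpace Z] (O : C(ℂ, Z)) (q : Z)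
    {a b a' b' : ℂ} (γ : Path a b) (γ' : Path a' b') (haa : a = a') (hbb : b = b')
    (ha : O a = q) (hb : O b = q) (ha' : O a' = q) (hb' : O b' = q) :
    Path.Homotopic.Quotient.mk (orbitLoop O q γ ha hb) =
      Path.Homotopic.Quotient.mk (orbitLoop O q γ' ha' hb') := by
  subst haa hbb
  apply Path.Homotopic.Quotient.eq.2
  apply Path.Homotopic.pathCast
  exact (SimplyConnectedSpace.paths_homotopic γ γ').map O

theorem orbitLoop_trans {Z : Type*} [TopologicalSpace Z] (O : C(ℂ, Z)) (q : Z)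
    {a b c : ℂ} (γ : Path a b) (γ' : Path b c)
    (ha : O a = q) (hb : O b = q) (hc : O c = q) :
    (orbitLoop O q γ ha hb).trans (orbitLoop O q γ' hb hc) =
      orbitLoop O q (γ.trans γ') ha hc := by
  ext t
  simp only [orbitLoop, Path.trans_apply, Path.cast_coe, Path.map_coe, Function.comp_apply]
  split_ifs <;> rfl

/-- Cyclicity: `O` is periodic under the subgroup generated by `ω`, and every loop at `q = O z₀`
is the image of a path from `z₀` to a translate `z₀ + n ω`. -/
theorem isCyclic_of_lift {Z : Type*} [TopologicalSpace Z] (O : C(ℂ, Z)) (q : Z) (z₀ : ℂ)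
    (hO0 : O z₀ = q) (ω : ℂ) (hω : ∀ (n : ℤ) (t : ℂ), O (n * ω + t) = O t)
    (hH : ∀ g : FundamentalGroup Z q, ∃ (n : ℤ) (hs : O (n * ω + z₀) = q)
      (γ : Path z₀ (n * ω + z₀)), g = Path.Homotopic.Quotient.mk (orbitLoop O q γ hO0 hs)) :
    ∃ Φ : Multiplicative ℤ →* FundamentalGroup Z q, Function.Surjective Φ := by
  have hq : ∀ n : ℤ, O (n * ω + z₀) = q := fun n => by rw [hω, hO0]
  let Φ : Multiplicative ℤ →* FundamentalGroup Z q := MonoidHom.mk'
    (fun s => Path.Homotopic.Quotient.mk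
      (orbitLoop O q (PathConnectedSpace.somePath z₀ (((Multiplicative.toAdd s : ℤ) : ℂ) * ω + z₀))
        hO0 (hq _)))
    (by
      intro s t
      rw [FundamentalGroup.mul_def]
      set σ : ℤ := Multiplicative.toAdd s with hσ
      set τ : ℤ := Multiplicative.toAdd t with hτ
      have h1 : orbitLoop O q (PathConnectedSpace.somePath z₀ ((σ : ℂ) * ω + z₀)) hO0 (hq σ) =
          orbitLoop O q (((PathConnectedSpace.somePath z₀ ((σ : ℂ) * ω + z₀)).map
            (f := fun x => (τ : ℂ) * ω + x) (by fun_prop)).cast (x' := (τ : ℂ) * ω + z₀)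
              (y' := (τ : ℂ) * ω + ((σ : ℂ) * ω + z₀)) rfl rfl) (hq τ)
              (by rw [hω]; exact hq σ) := by
        ext t
        simp only [orbitLoop, Path.cast_coe, Path.map_coe, Function.comp_apply]
        rw [hω]
      rw [h1, ← Path.Homotopic.Quotient.mk_trans, orbitLoop_trans]
      apply orbitLoop_eq
      · rfl
      · show (((σ + τ : ℤ)) : ℂ) * ω + z₀ = _
        push_cast
        ring)
  refine ⟨Φ, fun g => ?_⟩
  obtain ⟨n, hs, γ, rfl⟩ := hH g
  exact ⟨Multiplicative.ofAdd n, orbitLoop_eq _ _ _ _ rfl rfl _ _ _ _⟩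

/-- A space homeomorphic to the punctured plane has cyclic fundamental group. -/
theorem exists_surjective {Z : Type*} [TopologicalSpace Z] (h : {z : ℂ // z ≠ 0} ≃ₜ Z) (q : Z) :
    ∃ Φ : Multiplicative ℤ →* FundamentalGroup Z q, Function.Surjective Φ := by
  let E : C(ℂ, {z : ℂ // z ≠ 0}) := ⟨fun z => ⟨Complex.exp z, z.exp_ne_zero⟩, by fun_prop⟩
  let O : C(ℂ, Z) := (⟨h, h.continuous⟩ : C({z : ℂ // z ≠ 0}, Z)).comp E
  have hOE : ∀ z, O z = h (E z) := fun z => rfl
  have hcov : IsCoveringMap (E : ℂ → {z : ℂ // z ≠ 0}) := Complex.isCoveringMap_exp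
  obtain ⟨z₀, hz₀⟩ : ∃ z₀, E z₀ = h.symm q := by
    exact ⟨Complex.log (h.symm q), Subtype.ext (Complex.exp_log (h.symm q).2)⟩
  have hO0 : O z₀ = q := by rw [hOE, hz₀, h.apply_symm_apply]
  refine isCyclic_of_lift O q z₀ hO0 (2 * Real.pi * Complex.I) ?_ ?_
  · intro n t
    rw [hOE, hOE]
    congr 1
    apply Subtype.ext
    show Complex.exp _ = Complex.exp _
    rw [Complex.exp_add, Complex.exp_int_mul_two_pi_mul_I, one_mul]
  · intro g
    induction g using Path.Homotopic.Quotient.ind with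
    | _ γ =>
      have h0 : ((⟨h.symm, h.symm.continuous⟩ : C(Z, {z : ℂ // z ≠ 0})).comp γ.toContinuousMap) 0
          = E z₀ := by
        show h.symm (γ 0) = E z₀
        rw [γ.source, hz₀]
      set δ : C(unitInterval, {z : ℂ // z ≠ 0}) :=
        (⟨h.symm, h.symm.continuous⟩ : C(Z, {z : ℂ // z ≠ 0})).comp γ.toContinuousMap with hδ
      have hl : ∀ t, E (hcov.liftPath δ z₀ h0 t) = h.symm (γ t) := fun t =>
        congrFun (hcov.liftPath_lifts δ z₀ h0) t
      have hΓ0 : hcov.liftPath δ z₀ h0 0 = z₀ := hcov.liftPath_zero δ z₀ h0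
      have h1 : E (hcov.liftPath δ z₀ h0 1) = E z₀ := by
        rw [hl, γ.target, hz₀]
      have h2 : Complex.exp (hcov.liftPath δ z₀ h0 1) = Complex.exp z₀ := congrArg Subtype.val h1
      obtain ⟨n, hn⟩ := Complex.exp_eq_exp_iff_exists_int.1 h2
      have hn' : hcov.liftPath δ z₀ h0 1 = n * (2 * Real.pi * Complex.I) + z₀ := by
        rw [hn, add_comm]
      have hs : O (n * (2 * Real.pi * Complex.I) + z₀) = q := by
        rw [← hn', hOE, hl, γ.target, h.apply_symm_apply]
      refine ⟨n, hs, ⟨hcov.liftPath δ z₀ h0, hΓ0, hn'⟩, ?_⟩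
      congr 1
      ext t
      show γ t = O (hcov.liftPath δ z₀ h0 t)
      rw [hOE, hl, h.apply_symm_apply]

/-- The rank of the abelianised fundamental group is at most one. -/
theorem finrank_le_one_of_homeomorph {Z : Type*} [TopologicalSpace Z]
    (h : {z : ℂ // z ≠ 0} ≃ₜ Z) (q : Z) :
    Module.finrank ℤ (Additive (Abelianization (FundamentalGroup Z q))) ≤ 1 := by
  obtain ⟨Φ, hΦ⟩ := exists_surjective h q
  refine finrank_le_one (Additive.ofMul (Abelianization.of (Φ (Multiplicative.ofAdd 1)))) ?_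
  intro w
  obtain ⟨g, hg⟩ : ∃ g, Abelianization.of g = Additive.toMul w :=
    QuotientGroup.mk_surjective (Additive.toMul w)
  obtain ⟨n, rfl⟩ := hΦ g
  refine ⟨Multiplicative.toAdd n, ?_⟩
  apply Additive.toMul.injective
  rw [← hg, toMul_zsmul, toMul_ofMul, ← map_zpow, ← map_zpow, ← ofAdd_zsmul]
  simp

end Pool.Agent.H823R3
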