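import Pool.Agent.H823R3.DeltoidIrred
import Pool.Agent.H823R3.Pi1Cyclic

/-!
The complex deltoid is homeomorphic to the punctured plane.
-/

set_option autoImplicit false

open MvPolynomial Set Filter Topology

namespace Pool.Agent.H823R3.Deltoid

theorem cubic_eq {z : ℂ} (hz : z ≠ 0) : z ^ 3 = par z 0 * z ^ 2 - par z 1 * z + 1 := by
  rw [par_zero, par_one]
  field_simp
  ring

theorem cubic_inv_eq {z : ℂ} (hz : z ≠ 0) :
    (z⁻¹) ^ 3 = par z 1 * (z⁻¹) ^ 2 - par z 0 * z⁻¹ + 1 := by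
  rw [par_zero, par_one]
  field_simp
  ring

theorem norm_root_le {z u v : ℂ} {R : ℝ} (hR : 0 ≤ R) (hu : ‖u‖ ≤ R) (hv : ‖v‖ ≤ R)
    (h : z ^ 3 = u * z ^ 2 - v * z + 1) : ‖z‖ ≤ 2 * R + 1 := by
  by_contra hcon
  push Not at hcon
  have h1 : 1 < ‖z‖ := by linarith
  have h2 : ‖z‖ ^ 3 ≤ R * ‖z‖ ^ 2 + R * ‖z‖ + 1 := by
    calc ‖z‖ ^ 3 = ‖z ^ 3‖ := by rw [norm_pow]
      _ = ‖u * z ^ 2 - v * z + 1‖ := by rw [h]
      _ ≤ ‖u * z ^ 2 - v * z‖ + ‖(1 : ℂ)‖ := norm_add_le _ _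
      _ ≤ ‖u * z ^ 2‖ + ‖v * z‖ + ‖(1 : ℂ)‖ := by gcongr; exact norm_sub_le _ _
      _ = ‖u‖ * ‖z‖ ^ 2 + ‖v‖ * ‖z‖ + 1 := by simp
      _ ≤ R * ‖z‖ ^ 2 + R * ‖z‖ + 1 := by gcongr
  nlinarith [mul_pos (by linarith : (0:ℝ) < ‖z‖) (by linarith : (0:ℝ) < ‖z‖),
    mul_nonneg hR (by linarith : (0:ℝ) ≤ ‖z‖ - 1), mul_nonneg (mul_nonneg hR (by linarith : (0:ℝ) ≤ ‖z‖)) (by linarith : (0:ℝ) ≤ ‖z‖ - 1),
    mul_pos (mul_pos (by linarith : (0:ℝ) < ‖z‖) (by linarith : (0:ℝ) < ‖z‖)) (by linarith : (0:ℝ) < ‖z‖ - (2 * R + 1))]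

theorem continuousOn_par : ContinuousOn par {0}ᶜ := by
  unfold par
  apply continuousOn_pi.2
  intro i
  fin_cases i
  · show ContinuousOn (fun z : ℂ => 2 * z + (z ^ 2)⁻¹) {0}ᶜ
    refine ContinuousOn.add (by fun_prop) (ContinuousOn.inv₀ (by fun_prop) ?_)
    intro z hz
    exact pow_ne_zero 2 hz
  · show ContinuousOn (fun z : ℂ => 2 * z⁻¹ + z ^ 2) {0}ᶜ
    refine ContinuousOn.add (ContinuousOn.mul (by fun_prop) (ContinuousOn.inv₀ (by fun_prop) ?_))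
      (by fun_prop)
    intro z hz
    exact hz

/-- The parametrisation as a map on the punctured plane. -/
noncomputable def parS (z : {z : ℂ // z ≠ 0}) : Fin 2 → ℂ := par z

theorem continuous_parS : Continuous parS := by
  have := continuousOn_iff_continuous_restrict.1 continuousOn_par
  exact this

theorem isProperMap_parS : IsProperMap parS := by
  rw [isProperMap_iff_isCompact_preimage]
  refine ⟨continuous_parS, fun K hK => ?_⟩
  obtain ⟨R, hR⟩ := hK.isBounded.exists_norm_le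
  set R' := max R 0 with hR'
  have hR0 : 0 ≤ R' := le_max_right _ _
  have hb : ∀ z : ℂ, z ≠ 0 → par z ∈ K → ‖z‖ ≤ 2 * R' + 1 ∧ (2 * R' + 1)⁻¹ ≤ ‖z‖ := by
    intro z hz hzK
    have hn : ∀ i, ‖par z i‖ ≤ R' := fun i =>
      (norm_le_pi_norm (par z) i).trans ((hR _ hzK).trans (le_max_left _ _))
    refine ⟨norm_root_le hR0 (hn 0) (hn 1) (cubic_eq hz), ?_⟩
    have := norm_root_le hR0 (hn 1) (hn 0) (cubic_inv_eq hz)
    rw [norm_inv] at this
    rw [inv_le_comm₀ (by positivity) (norm_pos_iff.2 hz)]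
    exact this
  rw [Subtype.isCompact_iff]
  have hA : Subtype.val '' (parS ⁻¹' K)
      = {z : ℂ | (2 * R' + 1)⁻¹ ≤ ‖z‖ ∧ ‖z‖ ≤ 2 * R' + 1} ∩ par ⁻¹' K := by
    ext z
    constructor
    · rintro ⟨z, hz, rfl⟩
      obtain ⟨h1, h2⟩ := hb z z.2 hz
      exact ⟨⟨h2, h1⟩, hz⟩
    · rintro ⟨⟨h1, h2⟩, h3⟩
      have hz : z ≠ 0 := by
        have : 0 < ‖z‖ := lt_of_lt_of_le (by positivity) h1
        exact norm_pos_iff.1 this
      exact ⟨⟨z, hz⟩, h3, rfl⟩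
  rw [hA]
  have hsub : {z : ℂ | (2 * R' + 1)⁻¹ ≤ ‖z‖ ∧ ‖z‖ ≤ 2 * R' + 1} ⊆ {0}ᶜ := by
    rintro z ⟨h1, -⟩
    have : 0 < ‖z‖ := lt_of_lt_of_le (by positivity) h1
    exact norm_pos_iff.1 this
  have hclosed : IsClosed {z : ℂ | (2 * R' + 1)⁻¹ ≤ ‖z‖ ∧ ‖z‖ ≤ 2 * R' + 1} := by
    apply IsClosed.and
    · exact isClosed_le continuous_const continuous_norm
    · exact isClosed_le continuous_norm continuous_const
  refine IsCompact.of_isClosed_subset (isCompact_closedBall (0:ℂ) (2 * R' + 1)) ?_ ?_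
  · exact (continuousOn_par.mono hsub).preimage_isClosed_of_isClosed hclosed hK.isClosed
  · rintro z ⟨⟨-, h2⟩, -⟩
    simpa using h2

theorem parS_injective : Function.Injective parS := by
  intro z w h
  exact Subtype.ext (par_injective z.2 w.2 h)

theorem isClosedEmbedding_parS : IsClosedEmbedding parS :=
  .of_continuous_injective_isClosedMap continuous_parS parS_injective isProperMap_parS.isClosedMap

theorem range_parS : range parS = {z : Fin 2 → ℂ | eval z f = 0} := by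
  ext p
  constructor
  · rintro ⟨z, rfl⟩
    exact eval_par z.2
  · intro hp
    obtain ⟨z, hz, rfl⟩ := exists_par hp
    exact ⟨⟨z, hz⟩, rfl⟩

/-- The deltoid is homeomorphic to the punctured plane. -/
noncomputable def homeo : {z : ℂ // z ≠ 0} ≃ₜ ↥{z : Fin 2 → ℂ | eval z f = 0} :=
  (isClosedEmbedding_parS.isEmbedding.toHomeomorph).trans (Homeomorph.setCongr range_parS)

theorem finrank_le_one (x₀ : ↥{z : Fin 2 → ℂ | eval z f = 0}) :
    Module.finrank ℤ (Additive (Abelianization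
      (FundamentalGroup ↥{z : Fin 2 → ℂ | eval z f = 0} x₀))) ≤ 1 :=
  finrank_le_one_of_homeomorph homeo x₀

end Pool.Agent.H823R3.Deltoid
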