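import Mathlib

/-!
Project H74-LW (helper74), task `TaskF3`: degree of the splitting field of a product.
-/

set_option autoImplicit false

open Polynomial Finset NumberField

namespace Pool.Agent.H823R3.LWF3

theorem taskF3 (F : Type) [Field F] [NumberField F] (g : ℚ[X]) (hg : g ≠ 0)
    (hF : IsSplittingField ℚ F g) (h : ℚ[X]) (hh : h ≠ 0) :
    Module.finrank ℚ (SplittingField (g * h)) = Module.finrank ℚ F *
      Module.finrank F (SplittingField (h.map (algebraMap ℚ F))) := by
  let K := SplittingField (h.map (algebraMap ℚ F))
  have hsf : IsSplittingField F K (h.map (algebraMap ℚ F)) :=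
    IsSplittingField.splittingField _
  have : IsScalarTower ℚ F K := inferInstance
  have hK : IsSplittingField ℚ K (g * h) := IsSplittingField.mul (F := ℚ) (K := F) K g h hg hh
  have e : K ≃ₐ[ℚ] SplittingField (g * h) := by
    have := IsSplittingField.algEquiv K (g * h)
    convert this
    · rfl
    · exact Subsingleton.elim _ _
  rw [← LinearEquiv.finrank_eq e.toLinearEquiv]
  exact (Module.finrank_mul_finrank ℚ F K).symm

end Pool.Agent.H823R3.LWF3
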